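import Pool.Agent.Lib_helper32.TF.INE
import Pool.Agent.Lib_helper95.RC.Defs24

/-!
# The pencil functions of a pair `(A, D)`

`tau p A D z = Tr (D - z (A - D))_+^p + Tr (-D - z (A + D))_+^p` and `eta = -tau'`.
-/

open scoped BigOperators ComplexOrder Kronecker MatrixOrder
open MeasureTheory Set Matrix

namespace Pool.Agent.RC

variable {ι : Type} [Fintype ι] [DecidableEq ι]

/-- `Tr (D - z (A - D))_+^p + Tr (-D - z (A + D))_+^p` -/
noncomputable def tau (p : ℝ) (A D : Matrix ι ι ℂ) (z : ℝ) : ℝ :=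
  trF (INE.pp p) (D - (z : ℂ) • (A - D)) + trF (INE.pp p) (-D - (z : ℂ) • (A + D))

/-- `x_+^(p-1)` -/
noncomputable def gp (p x : ℝ) : ℝ := (max x 0) ^ (p - 1)

/-- `p (Tr (D - z (A - D))_+^(p-1) (A - D) + Tr (-D - z (A + D))_+^(p-1) (A + D))` -/
noncomputable def eta (p : ℝ) (A D : Matrix ι ι ℂ) (z : ℝ) : ℝ :=
  p * (((cfc (gp p) (D - (z : ℂ) • (A - D)) * (A - D)).trace).re +
    ((cfc (gp p) (-D - (z : ℂ) • (A + D)) * (A + D)).trace).re)

end Pool.Agent.RC
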